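import Mathlib
import Pool.Agent.Helper2.BI.St

set_option autoImplicit false

namespace Pool.Agent.Helper9.BI

open Pool.Agent.Helper2.BI
open Finset
open N063b59cf

theorem hCV : CV := by
  classical
  rintro ⟨V₀, hST⟩
  refine ⟨V₀, ?_⟩
  intro X hX v hv u hL h12
  have hv' := Finset.mem_Ioc.mp hv
  have hu1 : 1 ≤ u := hL.1
  obtain ⟨p, m, hp, hum, hmv, hpm, hvp, hpv, hq⟩ := hST v (by omega) u hL h12
  have hp1 : p - 1 ≠ 0 := by omega
  have hd0 : v - u ≠ 0 := by omega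
  have hi1 : 2 ^ (Nat.log 2 (p - 1)) ≤ p - 1 := Nat.pow_log_le_self 2 hp1
  have hi2 : p - 1 < 2 ^ (Nat.log 2 (p - 1) + 1) := Nat.lt_pow_succ_log_self (by norm_num) _
  have hj1 : 2 ^ (Nat.log 2 (v - u)) ≤ v - u := Nat.pow_log_le_self 2 hd0
  have hj2 : v - u < 2 ^ (Nat.log 2 (v - u) + 1) := Nat.lt_pow_succ_log_self (by norm_num) _
  have hlog1 : 1 ≤ Nat.log 2 (v - u) := by
    apply Nat.le_log_of_pow_le (by norm_num)
    omega
  obtain ⟨j, hj⟩ : ∃ j, Nat.log 2 (v - u) = j + 1 := ⟨Nat.log 2 (v - u) - 1, by omega⟩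
  obtain ⟨i, hi⟩ : ∃ i, Nat.log 2 (p - 1) = i := ⟨_, rfl⟩
  rw [hj] at hj1 hj2
  rw [hi] at hi1 hi2
  have hji : j ≤ i := by
    have h1 : 2 ^ (j + 1) < 2 ^ (i + 1) := by omega
    have h2 : j + 1 < i + 1 := (Nat.pow_lt_pow_iff_right (by norm_num)).mp h1
    omega
  have h4 : 4 ^ i < 2 * X := by
    have h1 : 4 ^ i = (2 ^ i) ^ 2 := by
      rw [← pow_mul, mul_comm, pow_mul]; norm_num
    have h2 : 2 ^ i < p := by omega
    have h3 : (2 ^ i) ^ 2 < p ^ 2 := Nat.pow_lt_pow_left h2 (by norm_num)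
    omega
  have hpX : p ^ 2 ≤ 2 * X := le_trans hpv hv'.2
  have hE : v ∈ Es X (2 ^ (j + 1)) := by
    unfold Es
    rw [Finset.mem_filter]
    refine ⟨hv, ?_⟩
    intro j' hj' q hqp hqX hdiv
    have h1 : q ≤ p := hq (v - j') (by omega) (by omega) q hqp hdiv
    have h2 : q ^ 2 ≤ p ^ 2 := Nat.pow_le_pow_left h1 2
    omega
  have h2i : 2 ^ (i + 1) = 2 * 2 ^ i := by rw [pow_succ, mul_comm]
  have h2j : 2 ^ (j + 1) = 2 * 2 ^ j := by rw [pow_succ, mul_comm]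
  have hj3 : v - u < 2 ^ (j + 2) := hj2
  have hex : ∃ p' : ℕ, p'.Prime ∧ 2 ^ i < p' ∧ p' ≤ 2 * 2 ^ i ∧ p' ^ 2 ∣ m :=
    ⟨p, hp, by omega, by omega, hpm⟩
  refine ⟨i, j, hji, h4, hj3, hE, m, ?_, hmv, by omega⟩
  rcases le_or_gt (2 ^ j) (v - m) with hc | hc
  · left
    unfold Mp
    rw [Finset.mem_filter]
    refine ⟨Finset.mem_Icc.mpr ⟨by omega, by omega⟩, hex, ?_⟩
    intro j' hj' q hqp hqX hdiv
    have hj'' := Finset.mem_Icc.mp hj'
    have h1 : q ≤ p := hq (m + j') (by omega) (by omega) q hqp hdiv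
    omega
  · right
    unfold Mm
    rw [Finset.mem_filter]
    refine ⟨Finset.mem_Icc.mpr ⟨by omega, by omega⟩, hex, ?_⟩
    intro j' hj' q hqp hqX hdiv
    have hj'' := Finset.mem_Icc.mp hj'
    have h1 : q ≤ p := hq (m - j') (by omega) (by omega) q hqp hdiv
    omega

end Pool.Agent.Helper9.BI
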